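import Pool.Agent.K4H39.HU.Main

/-!
# Hunt's hybrid construction in dimension two

`SpecialUnitary n` is the group `SU(n, 1)`, a subgroup of `SL(n + 1, ℂ)` with its usual topology, and
`modular` is the image of `SL(2, ℤ)` under the isomorphism `g ↦ C g C⁻¹` of `SL(2, ℝ)` with
`SU(1, 1)`, where `C` is the matrix of the Cayley transform. The subgroups of finite index of
`modular` are arithmetic lattices of `SU(1, 1)`. A subgroup `Γ` of `SU(n, 1)` has finite covolume
(`HasFiniteCovolume`) if `SU(n, 1) / Γ` has a finite nonzero invariant Borel measure.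

**Theorem.** Let `n ≥ 1` and let `Γ` be a finitely generated subgroup of finite covolume of
`SU(n, 1)`, for example any lattice (lattices of `SU(n, 1)` are finitely generated). There are
subgroups `Γ₁, Γ₂` of finite index of `modular` and a homomorphism `ρ` from the free product
of `Γ₁` and `Γ₂` onto `Γ` which is injective on `Γ₁` and on `Γ₂` (`IsHybrid`).

Let `n = 2`. Then the group `Γ₃ < SU(0, 1)` of Hunt's construction is trivial, the amalgam
`Γ₁ ⋆_{Γ₃} Γ₂` is the free product, and the theorem says that every lattice of `SU(2, 1)` is obtained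
from arithmetic lattices `Γ₁, Γ₂` of `SU(1, 1)` as in the question. So for `n = 2` the answer to the
question as stated is positive for all the nonarithmetic lattices of `SU(2, 1)` (which exist by
Mostow and Deligne-Mostow).

The proof. Let `g₁, …, gₘ` be generators of `Γ`. Let `P, Q` be two points of the sphere at infinity.
By Poincaré recurrence for a hyperbolic element, acting on `SU(n, 1) / Γ`, there are elements of `Γ`
which map the complement of a given neighbourhood of `Q` into a given neighbourhood of `P`. One
takes general points `P₁, …, Pₘ, Q₁, …, Qₘ`, such that the points `gᵢ⁻¹ Qᵢ` are different from each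
other and from the points `Pᵢ`, and such elements `xᵢ` for `(Pᵢ, Qᵢ)`. Then `x₁, …, xₘ` are free
generators of a group, and so are `x₁ g₁, …, xₘ gₘ`, by the ping-pong lemma. The two groups generate
`Γ`. Finally `SL(2, ℤ)` has free subgroups of finite index of each finite rank `m ≥ 2`.
-/

set_option autoImplicit false

open scoped MatrixGroups

namespace Pool.Agent.Results.MP_5d4057_al.DimensionTwo

open Pool.Agent.K4H39.HU

/-- **Lattices in `SU(n, 1)` are generated by two arithmetic lattices of `SU(1, 1)`.** -/
theorem result (n : ℕ) (hn : 1 ≤ n) (Γ : Subgroup (SpecialUnitary n)) (hΓ : HasFiniteCovolume Γ)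
    (hfg : Γ.FG) : ∃ Γ₁ Γ₂ : Subgroup (SpecialUnitary 1),
      FiniteIndexIn Γ₁ modular ∧ FiniteIndexIn Γ₂ modular ∧ IsHybrid Γ₁ Γ₂ Γ :=
  exists_modular n hn Γ hΓ hfg

end Pool.Agent.Results.MP_5d4057_al.DimensionTwo
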