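import Mathlib
import Pool.Agent.K4H34.HH.Hunt

/-!
# Hunt's orthogonal hybrids of arithmetic lattices of `SU(n - 1, 1)` are never nonarithmetic if
`n ≥ 4`

Let `n = k + 3 ≥ 3`. Let `W` be `ℂ ^ (n - 1)` with the Hermitian form of signature `(n - 2, 1)`
(`lorentz`), and consider `W ⊕ ℂ e₁ ⊕ ℂ e₂` with the orthogonal form of signature `(n, 1)`, where
`e₁, e₂` are orthogonal vectors of norm one. In Hunt's construction there are lattices `Γ₃` of
`SU(W) = SU(n - 2, 1)`, `Γ₁` of `SU(W ⊕ ℂ e₁) = SU(n - 1, 1)` and `Γ₂` of `SU(W ⊕ ℂ e₂)`, such that
`Γ₁` and `Γ₂` contain `Γ₃`. They stabilize two orthogonal totally geodesic complex hypersurfaces of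
the complex hyperbolic space of dimension `n`, which meet in the complex hyperbolic space of
dimension `n - 2` of `Γ₃`. The hybrid (`hybrid Γ₁ Γ₂`) is the group `Γ` generated by `Γ₁` and `Γ₂`.
The homomorphism of the amalgam of `Γ₁` and `Γ₂` over `Γ₃` onto `Γ` is injective on `Γ₁` and on
`Γ₂`; the question is whether `Γ` can be a nonarithmetic lattice if `Γ₁, Γ₂, Γ₃` are arithmetic.

By Vinberg's theorem a lattice in `SU(n, 1)`, `n ≥ 2`, is arithmetic if and only if the traces of the
transformations `Ad γ` are algebraic integers and all their conjugates, except for those under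
automorphisms `σ` of `ℂ` which fix all these traces, are bounded (`AdjointVinbergCondition`).
The integrality is known for all lattices (Esnault, Groechenig). So a lattice in `SU(n, 1)` is
arithmetic if and only if it satisfies `AdjointVinbergCondition`. For `γ` in `SU(n, 1)` the trace of
`Ad γ` is `|tr γ| ^ 2 - 1`.

The condition on the groups `Γ₁` and `Γ₂` is the same condition for the traces of the elements
themselves (`VinbergCondition`): for every automorphism `σ` of `ℂ` the numbers `σ (tr γ)` are bounded,
or `σ` is the identity or the complex conjugation on all traces. It holds for all subgroups of the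
groups `SU(H)` of points over `E` of special unitary groups, for a CM field `E` with maximal real
subfield `F` and a Hermitian form `H` over `E` which is definite at all real places of `F` except for
one (Lean proof: `Pool.Agent.K4H34.HH.vinberg_of_hermitian`). Every arithmetic lattice of this
type has a subgroup of finite index with this property.

Theorem. Let `Γ₁, Γ₂, Γ₃` be as above; lattices may be replaced by subgroups which are Zariski dense
in the complex special linear group and unbounded (`IsLarge`; for lattices this is the density theorem
of Borel). Suppose that `Γ₁` and `Γ₂` satisfy `VinbergCondition`. Then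

* the hybrid satisfies `VinbergCondition` if and only if `Γ₁` and `Γ₂` have the same trace field;
* this is always the case if `n ≥ 4` (that is, `1 ≤ k`);
* if the hybrid satisfies `VinbergCondition` then it satisfies `AdjointVinbergCondition`.

Hence for `n ≥ 4` a hybrid of this kind which is a lattice is arithmetic: the construction cannot
produce a nonarithmetic lattice. For `n = 3` it can only do so if the CM fields of `Γ₁` and `Γ₂`
are different. This is in contrast to the hybrids of Gromov and Piatetski-Shapiro in real
hyperbolic spaces, which exist in all dimensions. Discreteness of the hybrid is not used.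

Proof. If `σ` fixes the traces of `Γ₁` and `Γ₂` then `σ(Γ₁)` is conjugate to `Γ₁` by a matrix
which is block diagonal, because of `Γ₃`, and the same holds for `Γ₂`; by Schur's lemma the blocks
belonging to `W` are proportional, so that the two conjugating matrices can be combined into one which
conjugates the hybrid. If the conjugates of the traces of `Γ₁` and `Γ₂` under `σ` are bounded,
then `σ(Γ₁)` and `σ(Γ₂)` preserve positive definite Hermitian forms, which are combined in the
same way. If `n ≥ 4` then `Γ₃` has a trace which is not real, and so the only automorphisms `σ`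
which fix the traces of `Γ₃`, an unbounded set, are those fixing the traces of `Γ₁`, or those of
`Γ₂`.
-/

set_option autoImplicit false

namespace Pool.Agent.Results.MP_5d4057_al.OrthogonalHybrids

open Pool.Agent.K4H34.HH

/-- **Vinberg's arithmeticity condition for orthogonal hybrids in `SU(n, 1)`, `n = k + 3`**: it holds
if and only if the two groups have the same trace field, and always if `n ≥ 4`. -/
theorem result (k : ℕ) {Γ₁ Γ₂ : Subgroup (GL' (Fin (k + 2) ⊕ Unit))}
    {Γ₃ : Subgroup (GL' (Fin (k + 2)))} (h₁ : IsLarge (extend (lorentz (k + 1))) Γ₁)
    (h₂ : IsLarge (extend (lorentz (k + 1))) Γ₂) (h₃ : IsLarge (lorentz (k + 1)) Γ₃)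
    (h₁₃ : Γ₃.map extendGL ≤ Γ₁) (h₂₃ : Γ₃.map extendGL ≤ Γ₂)
    (hV₁ : VinbergCondition Γ₁) (hV₂ : VinbergCondition Γ₂) :
    (VinbergCondition (hybrid Γ₁ Γ₂) ↔ traceField Γ₁ = traceField Γ₂) ∧
      (1 ≤ k → traceField Γ₁ = traceField Γ₂) ∧
      (VinbergCondition (hybrid Γ₁ Γ₂) → AdjointVinbergCondition (hybrid Γ₁ Γ₂)) :=
  hunt k h₁ h₂ h₃ h₁₃ h₂₃ hV₁ hV₂

end Pool.Agent.Results.MP_5d4057_al.OrthogonalHybrids
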