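import Mathlib
import Pool.Agent.K4H40.TH.Final

/-!
# Hybrids of arithmetic lattices along non-orthogonal hypersurfaces: the angle criterion

Let `n = k + 3 ≥ 3`. Let `W` be `ℂ ^ (n - 1)` with the Hermitian form of signature `(n - 2, 1)`
(`lorentz`), let `b` be a complex number with `0 < |b| < 1`, and consider `W ⊕ ℂ e₁ ⊕ ℂ e₂` with the
Hermitian form of signature `(n, 1)` (`tiltedForm`) for which `e₁, e₂` are vectors of norm one
orthogonal to `W` with `⟨e₁, e₂⟩ = b`. In Hunt's construction there are lattices `Γ₃` of
`SU(W) = SU(n - 2, 1)`, `Γ₁` of `SU(W ⊕ ℂ e₁) = SU(n - 1, 1)` and `Γ₂` of `SU(W ⊕ ℂ e₂)`, such that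
`Γ₁` and `Γ₂` contain `Γ₃`. They stabilize two totally geodesic complex hypersurfaces of the
complex hyperbolic space of dimension `n`, which meet with the angle `arccos |b|` in the complex
hyperbolic space of dimension `n - 2` of `Γ₃`; the group `Γ₁` acts trivially on the orthogonal
complement of `W ⊕ ℂ e₁`, which is spanned by `e₂ - b e₁`, and `Γ₂` acts trivially on the orthogonal
complement of `W ⊕ ℂ e₂`. The hybrid (`tiltedHybrid b Γ₁ Γ₂`) is the group generated by `Γ₁` and
`Γ₂`. The question is whether it can be a nonarithmetic lattice if `Γ₁, Γ₂, Γ₃` are arithmetic. The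
case of orthogonal hypersurfaces, `b = 0`, is the subject of `OrthogonalHybrids`.

By Vinberg's theorem a lattice in `SU(n, 1)`, `n ≥ 2`, is arithmetic if and only if the traces of the
transformations `Ad γ` are algebraic integers and all their conjugates, except for those under
automorphisms `σ` of `ℂ` which fix all these traces, are bounded (`AdjointVinbergCondition`).
The integrality is known for all lattices (Esnault, Groechenig). So a lattice in `SU(n, 1)` is
arithmetic if and only if it satisfies `AdjointVinbergCondition`. The condition on the groups `Γ₁`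
and `Γ₂` is `VinbergCondition`: for every automorphism `σ` of `ℂ` the numbers `σ (tr γ)` are bounded,
or `σ` is the identity or the complex conjugation on all traces. It holds for all subgroups of the
groups of points over a CM field `E` of special unitary groups of Hermitian forms over `E` which are
definite at all real places of the maximal real subfield except for one. Every arithmetic lattice of
this type has a subgroup of finite index with this property.

Theorem. Let `Γ₁, Γ₂, Γ₃` be as above; lattices may be replaced by subgroups which are Zariski dense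
in the complex special linear group and unbounded (`IsLarge`; for lattices this is the density theorem
of Borel). Suppose that `Γ₁` and `Γ₂` satisfy `VinbergCondition`. Then the hybrid satisfies
`AdjointVinbergCondition` if and only if

* `Γ₁` and `Γ₂` have the same trace field `E` (this is always so if `n ≥ 4`);
* the traces of all products `g₁ g₂` with `g₁ ∈ Γ₁` and `g₂ ∈ Γ₂` are in `E`;
* for all automorphisms `σ` under which the traces of `Γ₁` are bounded (all nontrivial places of the
  common totally real field) the number `σ (|b| ^ 2)` is real and less than `1`.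

Hence a hybrid of this kind which is a lattice is nonarithmetic if and only if the angle is not
rational over the CM field of the pieces or some nontrivial conjugate of `|b| ^ 2`, the squared
cosine of the angle, is at least one (or `n = 3` and the CM fields are different): for `n ≥ 4`
nonarithmeticity can only be produced by the angle, and it is visible in the products of two elements.
Discreteness of the hybrid is not used.

Proof. Let `σ` be an automorphism of `ℂ`. If the traces of `σ(Γ₁)` and `σ(Γ₂)` are bounded and the hybrid has
the same trace field, then `σ` of the hybrid preserves a Hermitian form, which by Schur's lemma is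
composed of the positive definite forms on the two hyperplanes preserved by `σ(Γ₁)` and `σ(Γ₂)`; it is
definite if and only if the conjugate of `|b| ^ 2` is less than one. If `σ` fixes the adjoint traces of
the hybrid and fixes the traces of `Γ₁` and `Γ₂`, then `σ(Γ₁)` is conjugate to `Γ₁` and `σ(Γ₂)` to
`Γ₂`, so that `σ` of the hybrid is conjugate to a hybrid with other parameters; the adjoint traces of
the products are polynomials, the equality extends from `Γ₁ × Γ₂` to the product of the Zariski
closures, and products of two unipotent elements show that the parameters are the same. In the same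
way the case that `σ` fixes the traces of `Γ₁` and conjugates those of `Γ₂` is excluded. Bounded
adjoint traces imply bounded traces, because all quotients of eigenvalues have modulus at most one.
-/

set_option autoImplicit false

namespace Pool.Agent.Results.MP_5d4057_al.TiltedHybrids

open Pool.Agent.K4H34.HH Pool.Agent.K4H40.TH

/-- **Vinberg's arithmeticity condition for hybrids in `SU(n, 1)`, `n = k + 3`, along
non-orthogonal hypersurfaces.** -/
theorem result (k : ℕ) {b : ℂ} (hb0 : b ≠ 0) (hb : ‖b‖ < 1)
    {Γ₁ Γ₂ : Subgroup (GL' (Fin (k + 2) ⊕ Unit))} {Γ₃ : Subgroup (GL' (Fin (k + 2)))}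
    (h₁ : IsLarge (extend (lorentz (k + 1))) Γ₁) (h₂ : IsLarge (extend (lorentz (k + 1))) Γ₂)
    (h₃ : IsLarge (lorentz (k + 1)) Γ₃)
    (h₁₃ : Γ₃.map extendGL ≤ Γ₁) (h₂₃ : Γ₃.map extendGL ≤ Γ₂)
    (hV₁ : VinbergCondition Γ₁) (hV₂ : VinbergCondition Γ₂) :
    tiltedHybrid b Γ₁ Γ₂ ≤ SU (tiltedForm (lorentz (k + 1)) b) ∧
    (AdjointVinbergCondition (tiltedHybrid b Γ₁ Γ₂) ↔
      traceField Γ₁ = traceField Γ₂ ∧
      (∀ g₁ ∈ Γ₁, ∀ g₂ ∈ Γ₂,
        (tiltGL b g₁ * swapGL (tiltGL (starRingEnd ℂ b) g₂)).1.trace ∈ traceField Γ₁) ∧
      ∀ σ : ℂ ≃+* ℂ, TracesBounded σ Γ₁ → ∃ r : ℝ, r < 1 ∧ σ ((‖b‖ ^ 2 : ℝ) : ℂ) = r) := by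
  obtain ⟨e1, e2, _⟩ := main k hb0 hb h₁ h₂ h₃ h₁₃ h₂₃ hV₁ hV₂
  exact ⟨e1, e2⟩

end Pool.Agent.Results.MP_5d4057_al.TiltedHybrids
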